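import Pool.Agent.Q116.MadProduct

/-!
# Product of the maximum average degrees of a graph and its complement (MP_0f9677_co, Q1, Q2)

For every `n ≥ 1` the maximum `f n` of `Mad G * Mad Gᶜ` over graphs on `n` vertices equals
`(x - 1) (n (n - 1) - x (x - 1)) / n`, where `x = bestX n` is the least positive integer with
`n (n - 1) ≤ x (3 x - 1)`, and it is attained by the clique-type graph `G_{n,x}`.
-/

namespace Pool.Agent.Results.MP_0f9677_co.MadProduct

open Q116.Mad

/-- Q1 and Q2: exact value of `f n` for every `n ≥ 1`, attained by a clique-type graph. -/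
theorem result (n : ℕ) (hn : 1 ≤ n) :
    (1 ≤ bestX n ∧ bestX n ≤ n) ∧
    f n = ((bestX n : ℝ) - 1) * ((n : ℝ) * (n - 1) - (bestX n : ℝ) * ((bestX n : ℝ) - 1)) / n ∧
    (∀ G : SimpleGraph (Fin n), Mad G * Mad Gᶜ ≤ f n) ∧
    Mad (cliqueType n (bestX n)) * Mad (cliqueType n (bestX n))ᶜ = f n :=
  Q116.Mad.main n hn

end Pool.Agent.Results.MP_0f9677_co.MadProduct
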